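import Pool.Agent.SawBr38.Bridge

/-!
Polygons from pairs of bridges with the same end point: cyclic shifts of bridges.
-/

set_option autoImplicit false

open Classical Finset Filter

namespace Pool.Agent.SawBr38

open SawNu Pool.Agent.Lib.SAW.HW

/-- signed distance from the line `ℝ z` -/
def phi (z p : Pt) : ℤ := z.2 * p.1 - z.1 * p.2

theorem phi_add (z p q : Pt) : phi z (p + q) = phi z p + phi z q := by
  simp only [phi, Prod.fst_add, Prod.snd_add]; ring

theorem phi_sub (z p q : Pt) : phi z (p - q) = phi z p - phi z q := by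
  simp only [phi, Prod.fst_sub, Prod.snd_sub]; ring

theorem phi_self (z : Pt) : phi z z = 0 := by simp only [phi]; ring

theorem phi_zero (z : Pt) : phi z 0 = 0 := by simp [phi]

theorem SA_glue {A C : List Pt} {e z : Pt} (hA : SA A) (hC : SA C) (hAs : A.sum = z)
    (hCs : C.sum = z) (h1 : ∀ i ≤ A.length, phi z (ps A i) ≤ 0)
    (h2 : ∀ i ≤ C.length, 0 ≤ phi z (ps C i)) (he : 0 < phi z e) :
    SA (A ++ e :: rv C) := by
  have hpos : ∀ k, ps (A ++ e :: rv C) (A.length + (k + 1)) = e + ps C (C.length - k) := by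
    intro k
    rw [ps_append_right, hAs]
    have : ps (e :: rv C) (k + 1) = e + ps (rv C) k := by
      simp [ps, List.take_succ_cons]
    rw [this, ps_rv, hCs]
    abel
  intro i j hij hj heq
  rw [List.length_append, List.length_cons, rv_length] at hj
  rcases Nat.lt_or_ge A.length j with hjA | hjA
  · obtain ⟨k, rfl⟩ : ∃ k, j = A.length + (k + 1) := ⟨j - A.length - 1, by omega⟩
    rw [hpos] at heq
    rcases Nat.lt_or_ge A.length i with hiA | hiA
    · obtain ⟨k', rfl⟩ : ∃ k', i = A.length + (k' + 1) := ⟨i - A.length - 1, by omega⟩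
      rw [hpos] at heq
      exact hC _ _ (by omega) (by omega) (add_left_cancel heq).symm
    · rw [ps_append_left hiA] at heq
      have h3 := h1 i hiA
      have h4 := h2 (C.length - k) (by omega)
      rw [heq, phi_add] at h3
      omega
  · rw [ps_append_left hjA, ps_append_left (by omega)] at heq
    exact hA i j hij hjA heq

/-- a bridge word -/
def BW (w : List Pt) : Prop :=
  SA w ∧ ∀ i, 0 < i → i ≤ w.length → 0 < (ps w i).2 ∧ (ps w i).2 ≤ (ps w w.length).2

theorem sa_rot {w : List Pt} (h : BW w) (t : ℕ) : SA (w.drop t ++ w.take t) := by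
  obtain ⟨h1, h2⟩ := h
  have h3 : SA (w ++ w) := by
    refine SA.append_of_wdn h1 h1 ?_ ?_
    · intro i hi
      rw [← ps_length]
      rcases Nat.eq_zero_or_pos i with h0 | h0
      · subst h0
        rw [ps_zero]
        rcases Nat.eq_zero_or_pos w.length with hw | hw
        · rw [hw, ps_zero]
        · have := (h2 _ hw le_rfl).1
          simpa using this.le
      · exact (h2 i h0 hi).2
    · intro i hi1 hi2
      exact (h2 i hi1 hi2).1
  have h4 : w ++ w = (w.take t ++ (w.drop t ++ w.take t)) ++ w.drop t := by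
    rw [← List.append_assoc, List.take_append_drop, List.append_assoc, List.take_append_drop]
  rw [h4] at h3
  exact h3.left.right

theorem ps_rot {w : List Pt} {t i : ℕ} (ht : t ≤ w.length) (hi : i ≤ w.length) :
    ∃ j ≤ w.length, phi w.sum (ps (w.drop t ++ w.take t) i) =
      phi w.sum (ps w j) - phi w.sum (ps w t) := by
  have hd : (w.drop t).length = w.length - t := List.length_drop
  rcases le_total i (w.length - t) with h | h
  · refine ⟨t + i, by omega, ?_⟩
    rw [ps_append_left (by rw [hd]; exact h), ps_drop _ _ ht, phi_sub]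
  · refine ⟨i - (w.length - t), by omega, ?_⟩
    rw [ps_append_right' (by rw [hd]; exact h), ps_take, hd, min_eq_left (by omega), phi_add]
    have : (w.drop t).sum = w.sum - ps w t := by
      have h5 : (w.take t).sum + (w.drop t).sum = w.sum := by
        rw [← List.sum_append, List.take_append_drop]
      exact eq_sub_of_add_eq' h5
    rw [this, phi_sub, phi_self]
    ring

theorem exists_min (w : List Pt) (hw : 0 < w.length) : ∃ t < w.length, ∀ i ≤ w.length,
    phi w.sum (ps w t) ≤ phi w.sum (ps w i) := by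
  obtain ⟨t, ht, hmin⟩ := Finset.exists_min_image (Finset.range w.length)
    (fun i => phi w.sum (ps w i)) ⟨0, Finset.mem_range.2 hw⟩
  refine ⟨t, Finset.mem_range.1 ht, fun i hi => ?_⟩
  rcases lt_or_eq_of_le hi with h | h
  · exact hmin i (Finset.mem_range.2 h)
  · have h0 := hmin 0 (Finset.mem_range.2 hw)
    rw [h, ps_length, phi_self]
    simpa [phi_zero] using h0

theorem exists_max (w : List Pt) (hw : 0 < w.length) : ∃ t < w.length, ∀ i ≤ w.length,
    phi w.sum (ps w i) ≤ phi w.sum (ps w t) := by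
  obtain ⟨t, ht, hmin⟩ := Finset.exists_max_image (Finset.range w.length)
    (fun i => phi w.sum (ps w i)) ⟨0, Finset.mem_range.2 hw⟩
  refine ⟨t, Finset.mem_range.1 ht, fun i hi => ?_⟩
  rcases lt_or_eq_of_le hi with h | h
  · exact hmin i (Finset.mem_range.2 h)
  · have h0 := hmin 0 (Finset.mem_range.2 hw)
    rw [h, ps_length, phi_self]
    simpa [phi_zero] using h0

noncomputable def tmin (w : List Pt) : ℕ :=
  if hw : 0 < w.length then Classical.choose (exists_min w hw) else 0
noncomputable def tmax (w : List Pt) : ℕ :=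
  if hw : 0 < w.length then Classical.choose (exists_max w hw) else 0

theorem tmin_spec {w : List Pt} (hw : 0 < w.length) : tmin w < w.length ∧ ∀ i ≤ w.length,
    phi w.sum (ps w (tmin w)) ≤ phi w.sum (ps w i) := by
  rw [tmin, dif_pos hw]
  exact Classical.choose_spec (exists_min w hw)

theorem tmax_spec {w : List Pt} (hw : 0 < w.length) : tmax w < w.length ∧ ∀ i ≤ w.length,
    phi w.sum (ps w i) ≤ phi w.sum (ps w (tmax w)) := by
  rw [tmax, dif_pos hw]
  exact Classical.choose_spec (exists_max w hw)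

/-- undoing a cyclic shift -/
theorem rot_inj {w w' : List Pt} {t : ℕ} (hl : w.length = w'.length)
    (h : w.drop t ++ w.take t = w'.drop t ++ w'.take t) : w = w' := by
  have h1 := List.append_inj h (by rw [List.length_drop, List.length_drop, hl])
  rw [← List.take_append_drop t w, ← List.take_append_drop t w', h1.1, h1.2]

/-- the lattices with constant step set -/
structure Const (L : RLat) (S0 : Finset Pt) (e : Pt) : Prop where
  hS : ∀ b, L.S b = S0
  neg : ∀ s ∈ S0, -s ∈ S0
  mem : e ∈ S0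
  e2 : e.2 = 0
  e1 : 0 < e.1
  bd : ∀ s ∈ S0, |s.1| ≤ 2 ∧ |s.2| ≤ 2

theorem TW_const {L : RLat} {S0 : Finset Pt} {e : Pt} (hc : Const L S0 e) {b : Bool} {l : List Pt} :
    TW L.S b l ↔ ∀ s ∈ l, s ∈ S0 := by
  induction l generalizing b with
  | nil => simp [TW]
  | cons s l ih =>
    rw [TW, ih, hc.hS]
    simp

/-- the bridges as lists of steps -/
noncomputable def Bs (L : RLat) (n : ℕ) : Finset (List Pt) :=
  ((sysL L).brSet n).image (real L false)

theorem mem_Bs {L : RLat} (hM : Mirrored L) {n : ℕ} {l : List Pt} :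
    l ∈ Bs L n ↔ l.length = n ∧ TW L.S false l ∧ BW l := by
  rw [Bs, mem_image_brSet hM]
  constructor
  · rintro ⟨h1, h2, h3, h4⟩
    subst h1
    exact ⟨rfl, h2, h3, h4⟩
  · rintro ⟨h1, h2, h3, h4⟩
    subst h1
    exact ⟨rfl, h2, h3, h4⟩

/-- self-avoiding walks ending at `e` -/
noncomputable def Cs (L : RLat) (e : Pt) (n : ℕ) : Finset (List Pt) :=
  (WS L n).filter (fun l => l.sum = e)

/-- pairs of bridges with the same end point -/
noncomputable def Pairs (L : RLat) (n : ℕ) : Finset (List Pt × List Pt) :=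
  (Bs L n ×ˢ Bs L n).filter (fun q => q.1.sum = q.2.sum)

theorem sum_rot (w : List Pt) (t : ℕ) : (w.drop t ++ w.take t).sum = w.sum := by
  rw [List.sum_append, add_comm, ← List.sum_append, List.take_append_drop]

theorem length_rot (w : List Pt) (t : ℕ) : (w.drop t ++ w.take t).length = w.length := by
  rw [List.length_append, add_comm, ← List.length_append, List.take_append_drop]

/-- **Polygons from pairs of bridges.** -/
theorem pairs_le {L : RLat} (hM : Mirrored L) {S0 : Finset Pt} {e : Pt} (hc : Const L S0 e)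
    {m : ℕ} (hm : 0 < m) : (Pairs L m).card ≤ m ^ 2 * (Cs L e (2 * m + 1)).card := by
  have hcard : (Cs L e (2 * m + 1) ×ˢ (range m ×ˢ range m)).card =
      m ^ 2 * (Cs L e (2 * m + 1)).card := by
    rw [card_product, card_product, card_range]; ring
  rw [← hcard]
  refine card_le_card_of_injOn (fun q =>
    ((q.2.drop (tmax q.2) ++ q.2.take (tmax q.2)) ++
      e :: rv (q.1.drop (tmin q.1) ++ q.1.take (tmin q.1)), (tmin q.1, tmax q.2))) ?_ ?_
  · rintro ⟨w, w'⟩ hq
    rw [mem_coe, Pairs, mem_filter, mem_product, mem_Bs hM, mem_Bs hM] at hq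
    obtain ⟨⟨⟨h1, h2, h3⟩, ⟨h1', h2', h3'⟩⟩, hs⟩ := hq
    simp only at h1 h2 h3 h1' h2' h3' hs
    have hw : 0 < w.length := by omega
    have hw' : 0 < w'.length := by omega
    obtain ⟨g1, g2⟩ := tmin_spec hw
    obtain ⟨g1', g2'⟩ := tmax_spec hw'
    set A := w'.drop (tmax w') ++ w'.take (tmax w') with hA
    set C := w.drop (tmin w) ++ w.take (tmin w) with hC
    have hAl : A.length = m := by rw [hA, length_rot, h1']
    have hCl : C.length = m := by rw [hC, length_rot, h1]
    have hAs : A.sum = w'.sum := sum_rot _ _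
    have hCs : C.sum = w.sum := sum_rot _ _
    have hz2 : 0 < w.sum.2 := by
      have := (h3.2 w.length hw le_rfl).1
      rwa [ps_length] at this
    have hSA : SA (A ++ e :: rv C) := by
      refine SA_glue (z := w'.sum) (sa_rot h3' _) (sa_rot h3 _) hAs (hCs.trans hs) ?_ ?_ ?_
      · intro i hi
        rw [hAl, ← h1'] at hi
        obtain ⟨j, hj, hj2⟩ := ps_rot (t := tmax w') g1'.le hi
        rw [← hA] at hj2
        rw [hj2]
        have := g2' j hj
        omega
      · intro i hi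
        rw [hCl, ← h1] at hi
        obtain ⟨j, hj, hj2⟩ := ps_rot (t := tmin w) g1.le hi
        rw [← hC] at hj2
        rw [← hs, hj2]
        have := g2 j hj
        omega
      · rw [← hs, phi, hc.e2, mul_zero, sub_zero]
        exact mul_pos hz2 hc.e1
    have hstep : ∀ s ∈ A ++ e :: rv C, s ∈ S0 := by
      intro s hs
      rw [TW_const hc] at h2 h2'
      rcases List.mem_append.1 hs with h | h
      · rcases List.mem_append.1 h with h | h
        · exact h2' s (List.mem_of_mem_drop h)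
        · exact h2' s (List.mem_of_mem_take h)
      · rcases List.mem_cons.1 h with h | h
        · rw [h]; exact hc.mem
        · rw [rv, List.mem_reverse, List.mem_map] at h
          obtain ⟨u, hu, rfl⟩ := h
          apply hc.neg
          rcases List.mem_append.1 hu with h | h
          · exact h2 u (List.mem_of_mem_drop h)
          · exact h2 u (List.mem_of_mem_take h)
    rw [mem_coe, mem_product, mem_product]
    have k1 : tmin w < m := by omega
    have k2 : tmax w' < m := by omega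
    refine ⟨?_, mem_range.2 k1, mem_range.2 k2⟩
    show A ++ e :: rv C ∈ Cs L e (2 * m + 1)
    rw [Cs, mem_filter, mem_WS]
    refine ⟨⟨?_, (TW_const hc).2 hstep, hSA⟩, ?_⟩
    · rw [List.length_append, List.length_cons, rv_length, hAl, hCl]; ring
    · have hrv : (rv C).sum = -C.sum := by
        rw [rv, List.sum_reverse, sum_map_neg]
      rw [List.sum_append, List.sum_cons, hrv, hAs, hCs, hs]
      abel
  · rintro ⟨w, w'⟩ hq ⟨v, v'⟩ hq' heq
    rw [mem_coe, Pairs, mem_filter, mem_product, mem_Bs hM, mem_Bs hM] at hq hq'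
    obtain ⟨⟨⟨h1, h2, h3⟩, ⟨h1', h2', h3'⟩⟩, hs⟩ := hq
    obtain ⟨⟨⟨k1, k2, k3⟩, ⟨k1', k2', k3'⟩⟩, ks⟩ := hq'
    simp only [Prod.mk.injEq] at h1 h1' k1 k1' heq
    obtain ⟨e1, e2, e3⟩ := heq
    have hw : 0 < w.length := by omega
    have hw' : 0 < w'.length := by omega
    have hl := List.append_inj e1 (by rw [length_rot, length_rot, h1', k1'])
    have hl2 := congrArg rv (List.cons.inj hl.2).2
    rw [rv_rv, rv_rv, e2] at hl2
    have hl1 := hl.1
    rw [e3] at hl1
    have r1 : w = v := rot_inj (by rw [h1, k1]) hl2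
    have r2 : w' = v' := rot_inj (by rw [h1', k1']) hl1
    rw [r1, r2]

theorem sum_bound {S0 : Finset Pt} (hbd : ∀ s ∈ S0, |s.1| ≤ 2 ∧ |s.2| ≤ 2) {l : List Pt}
    (hl : ∀ s ∈ l, s ∈ S0) : |l.sum.1| ≤ 2 * l.length ∧ |l.sum.2| ≤ 2 * l.length := by
  induction l with
  | nil => simp
  | cons s l ih =>
    obtain ⟨i1, i2⟩ := ih (fun u hu => hl u (List.mem_cons_of_mem _ hu))
    obtain ⟨j1, j2⟩ := hbd s (hl s List.mem_cons_self)
    rw [List.sum_cons, List.length_cons]
    push_cast
    constructor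
    · have := abs_add_le s.1 l.sum.1
      rw [Prod.fst_add]; linarith
    · have := abs_add_le s.2 l.sum.2
      rw [Prod.snd_add]; linarith

theorem sq_le_pairs {L : RLat} (hM : Mirrored L) {S0 : Finset Pt} {e : Pt} (hc : Const L S0 e)
    (m : ℕ) : ((sysL L).b m) ^ 2 ≤ (4 * m + 1) ^ 2 * (Pairs L m).card := by
  rw [← card_image_brSet]
  show (Bs L m).card ^ 2 ≤ _
  set Z := (Bs L m).image (fun w => w.sum) with hZ
  have h1 : (Bs L m).card = ∑ z ∈ Z, ((Bs L m).filter (fun w => w.sum = z)).card :=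
    card_eq_sum_card_image _ _
  have h2 : (Pairs L m).card = ∑ z ∈ Z, ((Bs L m).filter (fun w => w.sum = z)).card ^ 2 := by
    have : ∀ q ∈ Pairs L m, q.1.sum ∈ Z := by
      intro q hq
      rw [Pairs, mem_filter, mem_product] at hq
      exact mem_image_of_mem _ hq.1.1
    rw [card_eq_sum_card_fiberwise this]
    refine Finset.sum_congr rfl fun z _ => ?_
    rw [sq, ← card_product]
    congr 1
    ext q
    simp only [Pairs, mem_filter, mem_product]
    constructor
    · rintro ⟨⟨⟨a1, a2⟩, a3⟩, a4⟩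
      exact ⟨⟨a1, a4⟩, a2, by rw [← a3]; exact a4⟩
    · rintro ⟨⟨a1, a2⟩, a3, a4⟩
      exact ⟨⟨⟨a1, a3⟩, by rw [a2, a4]⟩, a2⟩
  have h3 : Z.card ≤ (4 * m + 1) ^ 2 := by
    have hsub : Z ⊆ (Finset.Icc (-(2 * m : ℤ)) (2 * m)) ×ˢ (Finset.Icc (-(2 * m : ℤ)) (2 * m)) := by
      intro z hz
      rw [hZ, mem_image] at hz
      obtain ⟨w, hw, rfl⟩ := hz
      rw [mem_Bs hM] at hw
      obtain ⟨a1, a2, _⟩ := hw
      rw [TW_const hc] at a2
      have := sum_bound hc.bd a2
      rw [a1] at this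
      rw [mem_product, mem_Icc, mem_Icc]
      exact ⟨abs_le.1 this.1, abs_le.1 this.2⟩
    refine (card_le_card hsub).trans ?_
    rw [card_product, Int.card_Icc]
    have : (2 * (m : ℤ) + 1 - -(2 * m)).toNat = 4 * m + 1 := by omega
    rw [this, sq]
  rw [h1, h2]
  refine (sq_sum_le_card_mul_sum_sq).trans ?_
  exact Nat.mul_le_mul_right _ h3

/-- the closing walks: lower bound -/
theorem closing_lower {L : RLat} (hM : Mirrored L) (hup : ∀ b, ∃ u ∈ L.S b, u.2 = 1)
    {S0 : Finset Pt} {e : Pt} (hc : Const L S0 e) (ε : ℝ) (hε : 0 < ε) :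
    ∀ᶠ m : ℕ in atTop, ((WS L (2 * m + 1)).card : ℝ) ≤
      Real.exp (((2 * m + 1 : ℕ) : ℝ) ^ ε) * (Cs L e (2 * m + 1)).card := by
  have hε' : 0 < ε / 2 := by positivity
  have ev0 := walk_le_bridge_L hM hup (ε / 2) hε'
  have hlog := (isLittleO_log_rpow_atTop hε').bound (c := 1) one_pos
  have ev1 : ∀ᶠ m : ℕ in atTop, Real.log ((4 * m + 1 : ℕ) : ℝ) ≤ ((4 * m + 1 : ℕ) : ℝ) ^ (ε / 2) := by
    have ht : Tendsto (fun m : ℕ => ((4 * m + 1 : ℕ) : ℝ)) atTop atTop := by
      refine tendsto_natCast_atTop_atTop.comp ?_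
      exact tendsto_atTop_mono (fun m => by simp only [id]; omega) tendsto_id
    filter_upwards [ht.eventually hlog, eventually_ge_atTop 1] with m hm1 hm2
    have h1 : (1 : ℝ) ≤ ((4 * m + 1 : ℕ) : ℝ) := by exact_mod_cast (by omega : 1 ≤ 4 * m + 1)
    rw [one_mul, Real.norm_of_nonneg (Real.log_nonneg h1), Real.norm_of_nonneg (by positivity)] at hm1
    exact hm1
  have htop : Tendsto (fun m : ℕ => ((m : ℕ) : ℝ) ^ (ε / 2)) atTop atTop :=
    (tendsto_rpow_atTop hε').comp tendsto_natCast_atTop_atTop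
  have ev2 := htop.eventually_ge_atTop (Real.log ((WS L 1).card + 1))
  have ev3 := htop.eventually_ge_atTop (4 * 5 ^ (ε / 2) + 3)
  filter_upwards [ev0, ev1, ev2, ev3, eventually_ge_atTop 1] with m h0 h1 h2 h3 hm
  set a : ℕ → ℕ := fun n => (WS L n).card with ha
  set R : ℝ := ((Cs L e (2 * m + 1)).card : ℝ) with hR
  have hm1 : (1 : ℝ) ≤ m := by exact_mod_cast hm
  have hm0 : (0 : ℝ) < m := by linarith
  set y : ℝ := (m : ℝ) ^ (ε / 2) with hy
  have hy0 : 0 ≤ y := by positivity
  -- combinatorial inequalities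
  have c1 : (a (2 * m + 1) : ℝ) ≤ (a 1 + 1) * (a m) ^ 2 := by
    have g1 : a (2 * m + 1) ≤ a (m + m) * a 1 := by
      have := WS_mul hM (m + m) 1
      rw [show 2 * m + 1 = m + m + 1 by ring]
      exact this
    have g2 : a (m + m) ≤ a m * a m := WS_mul hM m m
    have g3 : a (2 * m + 1) ≤ (a m * a m) * a 1 := g1.trans (Nat.mul_le_mul_right _ g2)
    have g4 : (a (2 * m + 1) : ℝ) ≤ (a m * a m) * a 1 := by exact_mod_cast g3
    nlinarith [mul_nonneg (Nat.cast_nonneg (α := ℝ) (a m)) (Nat.cast_nonneg (α := ℝ) (a m))]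
  have c2 : (((sysL L).b m : ℕ) : ℝ) ^ 2 ≤ ((4 * m + 1 : ℕ) : ℝ) ^ 4 * R := by
    have g1 := sq_le_pairs hM hc m
    have g2 := pairs_le hM hc (m := m) (by omega)
    have g3 : (sysL L).b m ^ 2 ≤ (4 * m + 1) ^ 2 * (m ^ 2 * (Cs L e (2 * m + 1)).card) :=
      g1.trans (Nat.mul_le_mul_left _ g2)
    have g4 : (sysL L).b m ^ 2 ≤ (4 * m + 1) ^ 4 * (Cs L e (2 * m + 1)).card := by
      refine g3.trans ?_
      have : m ^ 2 ≤ (4 * m + 1) ^ 2 := Nat.pow_le_pow_left (by omega) 2
      calc (4 * m + 1) ^ 2 * (m ^ 2 * (Cs L e (2 * m + 1)).card)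
          ≤ (4 * m + 1) ^ 2 * ((4 * m + 1) ^ 2 * (Cs L e (2 * m + 1)).card) := by gcongr
        _ = _ := by ring
    rw [hR]
    exact_mod_cast g4
  have c3 : (a m : ℝ) ^ 2 ≤ Real.exp (2 * y) * (((sysL L).b m : ℕ) : ℝ) ^ 2 := by
    have := pow_le_pow_left₀ (Nat.cast_nonneg _) h0 2
    rw [mul_pow, ← Real.exp_nat_mul] at this
    simpa [ha, hy] using this
  have hX : ((4 * m + 1 : ℕ) : ℝ) ≤ Real.exp (5 ^ (ε / 2) * y) := by
    have hpos : (0 : ℝ) < ((4 * m + 1 : ℕ) : ℝ) := by positivity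
    rw [← Real.log_le_iff_le_exp hpos]
    refine h1.trans ?_
    rw [hy, ← Real.mul_rpow (by norm_num) hm0.le]
    refine Real.rpow_le_rpow hpos.le ?_ hε'.le
    push_cast
    linarith
  have hA1 : ((a 1 : ℕ) : ℝ) + 1 ≤ Real.exp y := by
    have hpos : (0 : ℝ) < ((a 1 : ℕ) : ℝ) + 1 := by positivity
    rw [← Real.log_le_iff_le_exp hpos]
    exact h2
  have hR0 : 0 ≤ R := Nat.cast_nonneg _
  have hexp : 3 * y + 4 * (5 ^ (ε / 2) * y) ≤ ((2 * m + 1 : ℕ) : ℝ) ^ ε := by
    have g1 : 3 * y + 4 * (5 ^ (ε / 2) * y) ≤ y * y := by nlinarith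
    have g2 : y * y = (m : ℝ) ^ ε := by
      rw [hy, ← Real.rpow_add hm0]; congr 1; ring
    refine g1.trans (g2.le.trans ?_)
    refine Real.rpow_le_rpow hm0.le ?_ hε.le
    push_cast
    linarith
  have c4 : ((4 * m + 1 : ℕ) : ℝ) ^ 4 ≤ Real.exp (4 * (5 ^ (ε / 2) * y)) := by
    have := pow_le_pow_left₀ (Nat.cast_nonneg _) hX 4
    rw [← Real.exp_nat_mul] at this
    simpa using this
  calc (a (2 * m + 1) : ℝ) ≤ (a 1 + 1) * (a m) ^ 2 := c1
    _ ≤ Real.exp y * (Real.exp (2 * y) * (((sysL L).b m : ℕ) : ℝ) ^ 2) := by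
        exact mul_le_mul hA1 c3 (by positivity) (Real.exp_pos _).le
    _ ≤ Real.exp y * (Real.exp (2 * y) * (Real.exp (4 * (5 ^ (ε / 2) * y)) * R)) := by
        refine mul_le_mul_of_nonneg_left ?_ (Real.exp_pos _).le
        refine mul_le_mul_of_nonneg_left ?_ (Real.exp_pos _).le
        exact c2.trans (mul_le_mul_of_nonneg_right c4 hR0)
    _ = Real.exp (3 * y + 4 * (5 ^ (ε / 2) * y)) * R := by
        rw [← mul_assoc, ← mul_assoc, ← Real.exp_add, ← Real.exp_add]
        congr 2; ring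
    _ ≤ Real.exp (((2 * m + 1 : ℕ) : ℝ) ^ ε) * R := by
        refine mul_le_mul_of_nonneg_right (Real.exp_le_exp.2 hexp) hR0

end Pool.Agent.SawBr38
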