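import Pool.Agent.SawHW33.VEnc
import Pool.Agent.SawHW33.Split
import Pool.Agent.SawHW33.Analysis
import Pool.Agent.Lib.SAW.HW.Unfold

/-!
Bridges among self-avoiding walks: the vertex-sequence count of bridges, and the comparison
`a n ≤ exp (n ^ ε) * b n`.
-/

set_option autoImplicit false

open Classical Finset Filter

namespace Pool.Agent.SawBr38

open SawNu Pool.Agent.Lib.SAW.HW

/-- the typed words that are bridges -/
theorem mem_image_brSet {L : RLat} (hM : Mirrored L) {n : ℕ} {l : List Pt} :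
    l ∈ ((sysL L).brSet n).image (real L false) ↔ l.length = n ∧ TW L.S false l ∧ SA l ∧
      ∀ i, 0 < i → i ≤ n → 0 < (ps l i).2 ∧ (ps l i).2 ≤ (ps l n).2 := by
  constructor
  · intro h
    obtain ⟨w, hw, rfl⟩ := mem_image.1 h
    obtain ⟨h1, h2, h3, h4⟩ := mem_brSet_L.1 hw
    refine ⟨by rw [length_real]; exact h1, TW_real hM false w, h2, ?_⟩
    intro i hi1 hi2
    rw [ps_real_snd, ps_real_snd]
    have h5 : lev (vL L) w n = ht (vL L) w := by rw [← h1]; exact lev_length _ _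
    rw [h5]
    exact ⟨h3 i hi1 (by omega), h4 i (by omega)⟩
  · rintro ⟨h1, h2, h3, h4⟩
    obtain ⟨w, rfl⟩ := exists_real hM false l h2
    rw [length_real] at h1
    refine mem_image_of_mem _ (mem_brSet_L.2 ⟨h1, h3, ?_, ?_⟩)
    · intro i hi1 hi2
      have := (h4 i hi1 (by omega)).1
      rwa [ps_real_snd] at this
    · intro i hi
      have h5 : lev (vL L) w n = ht (vL L) w := by rw [← h1]; exact lev_length _ _
      rcases Nat.eq_zero_or_pos i with h0 | h0
      · subst h0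
        rw [lev_zero]
        rcases Nat.eq_zero_or_pos n with hn | hn
        · subst hn
          rw [List.length_eq_zero_iff] at h1
          subst h1
          simp
        · have := (h4 n hn le_rfl).1
          rw [ps_real_snd, h5] at this
          exact this.le
      · have := (h4 i h0 (by omega)).2
        rwa [ps_real_snd, ps_real_snd, h5] at this

theorem card_image_brSet (L : RLat) (n : ℕ) :
    (((sysL L).brSet n).image (real L false)).card = (sysL L).b n :=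
  card_image_of_injective _ (real_injective false)

/-- the number of bridges in terms of vertex sequences -/
theorem ncard_bridge {L : RLat} (hM : Mirrored L) {Adj : ℤ × ℤ → ℤ × ℤ → Prop} (e : VEnc L Adj)
    (lv : ℤ × ℤ → ℤ) (hlv : ∀ p, lv p = (e.T p).2) (n : ℕ) :
    Set.ncard {f : Fin (n + 1) → ℤ × ℤ | f 0 = 0 ∧ Function.Injective f ∧
      (∀ i : Fin n, Adj (f i.castSucc) (f i.succ)) ∧
      ∀ i : Fin n, 0 < lv (f i.succ) ∧ lv (f i.succ) ≤ lv (f (Fin.last n))} =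
      (sysL L).b n := by
  rw [← card_image_brSet, ← Set.ncard_coe_finset]
  have hps : ∀ f : Fin (n + 1) → ℤ × ℤ, f 0 = 0 → ∀ j : Fin (n + 1),
      (ps (vword e.T f) j).2 = lv (f j) := by
    intro f hf0 j
    rw [ps_vword, hf0, e.T0, sub_zero, hlv]
  apply Set.ncard_congr (fun f _ => vword e.T f)
  · rintro f ⟨hf0, hfi, hfa, hfb⟩
    rw [Finset.mem_coe, mem_image_brSet hM]
    refine ⟨vword_length _ _, e.word_tw (p := 0) ⟨hf0, hfa⟩ e.ty0, ?_, ?_⟩
    · intro i j hij hj he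
      rw [vword_length] at hj
      have h1 := ps_vword e.T f ⟨i, by omega⟩
      have h2 := ps_vword e.T f ⟨j, by omega⟩
      simp only at h1 h2
      rw [h1, h2] at he
      have := hfi (e.inj (sub_left_inj.mp he))
      simp only [Fin.mk.injEq] at this
      omega
    · intro i hi1 hi2
      obtain ⟨k, rfl⟩ : ∃ k, i = k + 1 := ⟨i - 1, by omega⟩
      have h1 := hps f hf0 (Fin.succ ⟨k, by omega⟩)
      have h2 := hps f hf0 (Fin.last n)
      simp only [Fin.val_succ, Fin.val_last] at h1 h2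
      rw [h1, h2]
      exact hfb ⟨k, by omega⟩
  · rintro f g ⟨hf0, hfi, hfa, hfb⟩ ⟨hg0, hgi, hga, hgb⟩ h
    exact vword_inj e.inj (hf0.trans hg0.symm) h
  · intro l hl
    rw [Finset.mem_coe, mem_image_brSet hM] at hl
    obtain ⟨h1, h2, h3, h4⟩ := hl
    obtain ⟨f, ⟨hf1, hf2⟩, hf3⟩ := e.word_surj h1 h2 e.ty0
    refine ⟨f, ⟨hf1, ?_, hf2, ?_⟩, hf3⟩
    · intro i j hij
      by_contra hne
      have hne' : (i : ℕ) ≠ j := fun h => hne (Fin.ext h)
      have e1 := ps_vword e.T f i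
      have e2 := ps_vword e.T f j
      rw [hf3] at e1 e2
      have e3 : ps l i = ps l j := by rw [e1, e2, hij]
      rcases lt_or_gt_of_ne hne' with h | h
      · exact h3 i j h (by rw [h1]; omega) e3
      · exact h3 j i h (by rw [h1]; omega) e3.symm
    · intro i
      have k1 := hps f hf1 i.succ
      have k2 := hps f hf1 (Fin.last n)
      rw [hf3] at k1 k2
      simp only [Fin.val_succ, Fin.val_last] at k1 k2
      rw [← k1, ← k2]
      exact h4 (i + 1) (by omega) (by have := i.2; omega)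

/-- **Comparison of walks and bridges.** -/
theorem walk_le_bridge {a h b : ℕ → ℕ} (ha : ∀ m n, a (m + n) ≤ a m * a n)
    (hdec : ∀ n, a n ≤ ∑ m ∈ range (n + 1), h (m + 1) * h (n - m))
    (hb : ∀ p q, b p * b q ≤ b (p + q))
    (hh : ∀ ε : ℝ, 0 < ε → ∃ N₀ : ℕ, ∀ N : ℕ, N₀ ≤ N → ∀ p ≤ N,
      (h p : ℝ) ≤ Real.exp ((N : ℝ) ^ ε) * b p)
    (ε : ℝ) (hε : 0 < ε) :
    ∀ᶠ n : ℕ in atTop, (a n : ℝ) ≤ Real.exp ((n : ℝ) ^ ε) * b n := by
  have hε' : 0 < ε / 2 := by positivity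
  obtain ⟨N₀, hN₀⟩ := hh (ε / 2) hε'
  have ev1 : ∀ᶠ x : ℝ in atTop, Real.log x ≤ x ^ (ε / 2) := by
    have := (isLittleO_log_rpow_atTop hε').bound (c := 1) one_pos
    filter_upwards [this, eventually_ge_atTop (1 : ℝ)] with x hx hx1
    rw [one_mul, Real.norm_of_nonneg (Real.log_nonneg hx1),
      Real.norm_of_nonneg (by positivity)] at hx
    exact hx
  have ev1' := (tendsto_natCast_atTop_atTop (R := ℝ)).eventually ev1
  have ev2 : ∀ᶠ n : ℕ in atTop, Real.log (a 1 + 1) ≤ (n : ℝ) ^ (ε / 2) :=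
    ((tendsto_rpow_atTop hε').comp tendsto_natCast_atTop_atTop).eventually_ge_atTop _
  have ev3 : ∀ᶠ n : ℕ in atTop, (4 : ℝ) ≤ (n : ℝ) ^ (ε / 2) :=
    ((tendsto_rpow_atTop hε').comp tendsto_natCast_atTop_atTop).eventually_ge_atTop _
  filter_upwards [ev1', ev2, ev3, eventually_ge_atTop N₀, eventually_ge_atTop 1] with n e1 e2 e3 e4 e5
  have hn1 : (1 : ℝ) ≤ n := by exact_mod_cast e5
  have hn0 : (0 : ℝ) < n := by linarith
  set y : ℝ := (n : ℝ) ^ (ε / 2) with hy
  obtain ⟨m, rfl⟩ : ∃ m, n = m + 1 := ⟨n - 1, by omega⟩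
  -- a (m+1) ≤ a m * a 1
  have h1 : (a (m + 1) : ℝ) ≤ (a 1 + 1) * a m := by
    have h2 : a (m + 1) ≤ a m * a 1 := ha m 1
    have h3 : (a (m + 1) : ℝ) ≤ a m * a 1 := by exact_mod_cast h2
    have h4 : (0 : ℝ) ≤ a m := Nat.cast_nonneg _
    nlinarith
  have h2 : (a m : ℝ) ≤ ((m : ℝ) + 1) * (Real.exp (2 * y) * b (m + 1)) := by
    have h3 : (a m : ℝ) ≤ ∑ j ∈ range (m + 1), (h (j + 1) : ℝ) * h (m - j) := by
      exact_mod_cast hdec m
    refine h3.trans ?_
    have h4 : ∀ j ∈ range (m + 1), (h (j + 1) : ℝ) * h (m - j) ≤ Real.exp (2 * y) * b (m + 1) := by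
      intro j hj
      have hj' := mem_range.1 hj
      have k1 := hN₀ (m + 1) e4 (j + 1) (by omega)
      have k2 := hN₀ (m + 1) e4 (m - j) (by omega)
      have k3 : (b (j + 1) : ℝ) * b (m - j) ≤ b (m + 1) := by
        have := hb (j + 1) (m - j)
        rw [show j + 1 + (m - j) = m + 1 by omega] at this
        exact_mod_cast this
      calc (h (j + 1) : ℝ) * h (m - j) ≤
            (Real.exp (((m + 1 : ℕ) : ℝ) ^ (ε / 2)) * b (j + 1)) *
              (Real.exp (((m + 1 : ℕ) : ℝ) ^ (ε / 2)) * b (m - j)) :=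
            mul_le_mul k1 k2 (Nat.cast_nonneg _) (by positivity)
        _ = Real.exp (2 * y) * (b (j + 1) * b (m - j)) := by
            rw [two_mul, Real.exp_add, hy]; ring
        _ ≤ _ := mul_le_mul_of_nonneg_left k3 (Real.exp_pos _).le
    refine (sum_le_card_nsmul _ _ _ h4).trans (le_of_eq ?_)
    rw [card_range, nsmul_eq_mul]
    push_cast
    ring
  have hlogn : (((m + 1 : ℕ) : ℝ)) ≤ Real.exp y := by
    rw [← Real.log_le_iff_le_exp hn0]; exact e1
  have hloga : (a 1 : ℝ) + 1 ≤ Real.exp y := by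
    rw [← Real.log_le_iff_le_exp (by positivity)]; exact e2
  have hyy : 4 * y ≤ (((m + 1 : ℕ) : ℝ)) ^ ε := by
    have : (((m + 1 : ℕ) : ℝ)) ^ ε = y * y := by
      rw [hy, ← Real.rpow_add hn0]; congr 1; ring
    rw [this]
    exact mul_le_mul_of_nonneg_right e3 (by positivity)
  have hm1 : (m : ℝ) + 1 = ((m + 1 : ℕ) : ℝ) := by push_cast; rfl
  rw [hm1] at h2
  calc (a (m + 1) : ℝ) ≤ (a 1 + 1) * a m := h1
    _ ≤ Real.exp y * (Real.exp y * (Real.exp (2 * y) * b (m + 1))) := by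
        refine mul_le_mul hloga (h2.trans ?_) (Nat.cast_nonneg _) (Real.exp_pos _).le
        exact mul_le_mul_of_nonneg_right hlogn (by positivity)
    _ = Real.exp (4 * y) * b (m + 1) := by
        rw [show (4 : ℝ) * y = y + (y + 2 * y) by ring, Real.exp_add, Real.exp_add]; ring
    _ ≤ _ := mul_le_mul_of_nonneg_right (Real.exp_le_exp.2 hyy) (Nat.cast_nonneg _)

/-- the comparison for a mirrored row lattice -/
theorem walk_le_bridge_L {L : RLat} (hM : Mirrored L) (hup : ∀ b, ∃ u ∈ L.S b, u.2 = 1)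
    (ε : ℝ) (hε : 0 < ε) :
    ∀ᶠ n : ℕ in atTop, ((WS L n).card : ℝ) ≤ Real.exp ((n : ℝ) ^ ε) * (sysL L).b n := by
  refine walk_le_bridge (a := fun n => (WS L n).card) (h := fun n => (HSb L false n).card)
    (b := fun p => (sysL L).b p) (fun m n => WS_mul hM m n) (fun n => WS_split hM hup n)
    (fun p q => b_mul_le p q) ?_ ε hε
  intro ε' hε'
  obtain ⟨n₀, h₀⟩ := halfspace_bound hM ε' hε'
  exact ⟨n₀, fun N hN p hp => h₀ N hN p hp _ (fun l hl => mem_HSb.mp hl)⟩

/-- `μ ^ n ≤ a n` -/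
theorem mu_pow_le {a : ℕ → ℕ} {μ : ℝ}
    (hμ : μ = ⨅ n : {n : ℕ // 1 ≤ n}, (a n.1 : ℝ) ^ ((1 : ℝ) / (n.1 : ℝ))) (n : ℕ) (hn : 1 ≤ n) :
    μ ^ n ≤ a n := by
  have hn0 : (0 : ℝ) < n := by exact_mod_cast hn
  have hμ0 : 0 ≤ μ := by
    rw [hμ]; exact Real.iInf_nonneg (fun _ => by positivity)
  have h1 : μ ≤ (a n : ℝ) ^ ((1 : ℝ) / (n : ℝ)) := by
    rw [hμ]
    exact ciInf_le ⟨0, by rintro _ ⟨m, rfl⟩; positivity⟩ (⟨n, hn⟩ : {n : ℕ // 1 ≤ n})
  calc μ ^ n ≤ ((a n : ℝ) ^ ((1 : ℝ) / (n : ℝ))) ^ n := pow_le_pow_left₀ hμ0 h1 n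
    _ = a n := by
        rw [← Real.rpow_natCast, ← Real.rpow_mul (Nat.cast_nonneg _), one_div,
          inv_mul_cancel₀ hn0.ne', Real.rpow_one]

end Pool.Agent.SawBr38
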